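import Pool.Agent.N236.CP.Mat
set_option autoImplicit false
open Matrix

/-!
# Abstract form of the theorem

`W a Wᴴ` embeds the `10 × 10` matrices in the corner of the `11 × 11` matrices; `LM i` are the Kraus
operators of three commuting unital maps of the `11 × 11` matrices.
-/

namespace Pool.Agent.N236.CP

/-- integer matrices as complex matrices -/
noncomputable def cm (a : Matrix (Fin 10) (Fin 10) ℤ) : Matrix (Fin 10) (Fin 10) ℂ :=
  (Int.castRingHom ℂ).mapMatrix a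

lemma cm_mul (a b : Matrix (Fin 10) (Fin 10) ℤ) : cm (a * b) = cm a * cm b := map_mul _ _ _
lemma cm_neg (a : Matrix (Fin 10) (Fin 10) ℤ) : cm (-a) = -cm a := map_neg _ _
lemma cm_sub (a b : Matrix (Fin 10) (Fin 10) ℤ) : cm (a - b) = cm a - cm b := map_sub _ _ _
lemma cm_one : cm 1 = 1 := map_one _
lemma cm_apply (a : Matrix (Fin 10) (Fin 10) ℤ) (i j : Fin 10) : cm a i j = (a i j : ℂ) := rfl
lemma cm_ct (a : Matrix (Fin 10) (Fin 10) ℤ) : (cm a)ᴴ = cm aᵀ := by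
  ext i j
  simp [cm_apply, conjTranspose_apply]

/-- the Kraus operators of the first map -/
noncomputable def Ak : Fin 2 → Matrix (Fin 10) (Fin 10) ℂ :=
  ![(2 / 3 : ℂ) • cm A0Z, (2 / 3 : ℂ) • cm A1Z]

/-- `B` -/
noncomputable def Bk : Matrix (Fin 10) (Fin 10) ℂ := cm BZ
/-- `C` -/
noncomputable def Ck : Matrix (Fin 10) (Fin 10) ℂ := cm CZ

/-- all Kraus operators -/
noncomputable def Kr : Fin 3 → Fin 2 → Matrix (Fin 10) (Fin 10) ℂ := ![Ak, ![Bk, 0], ![Ck, 0]]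

/-- the defects -/
noncomputable def Dk : Fin 3 → Matrix (Fin 10) (Fin 10) ℂ :=
  ![1 - (2 / 3 : ℂ) • cm PZ, 1 - Bkᴴ * Bk, 1 - Ckᴴ * Ck]

lemma defect (i : Fin 3) : (Dk i)ᴴ * Dk i + ∑ l, (Kr i l)ᴴ * Kr i l = 1 := by
  fin_cases i
  · show (1 - (2 / 3 : ℂ) • cm PZ)ᴴ * (1 - (2 / 3 : ℂ) • cm PZ) + ∑ l, (Ak l)ᴴ * Ak l = 1
    have h1 : (cm PZ)ᴴ = cm PZ := by rw [cm_ct, PT]
    have h2 : cm PZ * cm PZ = cm PZ := by rw [← cm_mul]; nth_rewrite 1 [← PT]; rw [PP]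
    have h3 : (cm A0Z)ᴴ * cm A0Z = cm PZ := by rw [cm_ct, ← cm_mul, A00]
    have h4 : (cm A1Z)ᴴ * cm A1Z = cm PZ := by rw [cm_ct, ← cm_mul, A11]
    rw [Fin.sum_univ_two]
    show (1 - (2 / 3 : ℂ) • cm PZ)ᴴ * (1 - (2 / 3 : ℂ) • cm PZ) +
      (((2 / 3 : ℂ) • cm A0Z)ᴴ * ((2 / 3 : ℂ) • cm A0Z) +
        ((2 / 3 : ℂ) • cm A1Z)ᴴ * ((2 / 3 : ℂ) • cm A1Z)) = 1
    have hs : star (2 / 3 : ℂ) = 2 / 3 := by
      have : ((2 / 3 : ℝ) : ℂ) = 2 / 3 := by push_cast; rfl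
      rw [← this]; simp
    rw [conjTranspose_sub, conjTranspose_smul, conjTranspose_smul, conjTranspose_smul, hs, h1,
      conjTranspose_one, Matrix.smul_mul, Matrix.mul_smul, h3, Matrix.smul_mul, Matrix.mul_smul, h4]
    simp only [Matrix.sub_mul, Matrix.mul_sub, Matrix.smul_mul, Matrix.mul_smul, h2,
      Matrix.one_mul, Matrix.mul_one, smul_smul]
    module
  · show (1 - Bkᴴ * Bk)ᴴ * (1 - Bkᴴ * Bk) + ∑ l, ((![Bk, 0] : Fin 2 → _) l)ᴴ *
      (![Bk, 0] : Fin 2 → _) l = 1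
    have h : (1 - Bkᴴ * Bk)ᴴ * (1 - Bkᴴ * Bk) = 1 - Bkᴴ * Bk := by
      unfold Bk
      rw [cm_ct, ← cm_mul, ← cm_one, ← cm_sub, cm_ct, ← cm_mul, BB]
    rw [h, Fin.sum_univ_two]
    simp
  · show (1 - Ckᴴ * Ck)ᴴ * (1 - Ckᴴ * Ck) + ∑ l, ((![Ck, 0] : Fin 2 → _) l)ᴴ *
      (![Ck, 0] : Fin 2 → _) l = 1
    have h : (1 - Ckᴴ * Ck)ᴴ * (1 - Ckᴴ * Ck) = 1 - Ckᴴ * Ck := by
      unfold Ck
      rw [cm_ct, ← cm_mul, ← cm_one, ← cm_sub, cm_ct, ← cm_mul, CC]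
    rw [h, Fin.sum_univ_two]
    simp

/-! ### the commutation relations of the contractive maps -/

/-- `S i a = ∑ Kᴴ a K` -/
noncomputable def S (i : Fin 3) (a : Matrix (Fin 10) (Fin 10) ℂ) : Matrix (Fin 10) (Fin 10) ℂ :=
  ∑ l, (Kr i l)ᴴ * a * Kr i l

lemma A0B' : Ak 0 * Bk = Bk * Ak 1 := by
  show ((2 / 3 : ℂ) • cm A0Z) * cm BZ = cm BZ * ((2 / 3 : ℂ) • cm A1Z)
  rw [Matrix.smul_mul, Matrix.mul_smul, ← cm_mul, ← cm_mul, A0B]
lemma A1B' : Ak 1 * Bk = Bk * Ak 0 := by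
  show ((2 / 3 : ℂ) • cm A1Z) * cm BZ = cm BZ * ((2 / 3 : ℂ) • cm A0Z)
  rw [Matrix.smul_mul, Matrix.mul_smul, ← cm_mul, ← cm_mul, A1B]
lemma A0C' : Ak 0 * Ck = Ck * Ak 0 := by
  show ((2 / 3 : ℂ) • cm A0Z) * cm CZ = cm CZ * ((2 / 3 : ℂ) • cm A0Z)
  rw [Matrix.smul_mul, Matrix.mul_smul, ← cm_mul, ← cm_mul, A0C]
lemma A1C' : Ak 1 * Ck = -(Ck * Ak 1) := by
  show ((2 / 3 : ℂ) • cm A1Z) * cm CZ = -(cm CZ * ((2 / 3 : ℂ) • cm A1Z))
  rw [Matrix.smul_mul, Matrix.mul_smul, ← cm_mul, ← cm_mul, A1C, cm_neg, smul_neg]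
lemma BC' : Bk * Ck = Ck * Bk := by
  show cm BZ * cm CZ = cm CZ * cm BZ
  rw [← cm_mul, ← cm_mul, BC]

lemma sand (x y a : Matrix (Fin 10) (Fin 10) ℂ) :
    xᴴ * (yᴴ * a * y) * x = (y * x)ᴴ * a * (y * x) := by
  rw [conjTranspose_mul]; noncomm_ring

lemma S0 (a : Matrix (Fin 10) (Fin 10) ℂ) :
    S 0 a = (Ak 0)ᴴ * a * Ak 0 + (Ak 1)ᴴ * a * Ak 1 := by
  show ∑ l, (Ak l)ᴴ * a * Ak l = _
  rw [Fin.sum_univ_two]

lemma S1 (a : Matrix (Fin 10) (Fin 10) ℂ) : S 1 a = Bkᴴ * a * Bk := by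
  show ∑ l, ((![Bk, 0] : Fin 2 → _) l)ᴴ * a * (![Bk, 0] : Fin 2 → _) l = _
  rw [Fin.sum_univ_two]; simp

lemma S2 (a : Matrix (Fin 10) (Fin 10) ℂ) : S 2 a = Ckᴴ * a * Ck := by
  show ∑ l, ((![Ck, 0] : Fin 2 → _) l)ᴴ * a * (![Ck, 0] : Fin 2 → _) l = _
  rw [Fin.sum_univ_two]; simp

lemma S01 (a : Matrix (Fin 10) (Fin 10) ℂ) : S 0 (S 1 a) = S 1 (S 0 a) := by
  rw [S0, S1, S1, S0, Matrix.mul_add, Matrix.add_mul, sand, sand, sand, sand, A0B', A1B', add_comm]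

lemma S02 (a : Matrix (Fin 10) (Fin 10) ℂ) : S 0 (S 2 a) = S 2 (S 0 a) := by
  rw [S0, S2, S2, S0, Matrix.mul_add, Matrix.add_mul, sand, sand, sand, sand, A0C', A1C']
  simp

lemma S12 (a : Matrix (Fin 10) (Fin 10) ℂ) : S 1 (S 2 a) = S 2 (S 1 a) := by
  rw [S1, S2, S2, S1, sand, sand, BC']

lemma S_comm (i k : Fin 3) (a : Matrix (Fin 10) (Fin 10) ℂ) : S i (S k a) = S k (S i a) := by
  fin_cases i <;> fin_cases k
  · rfl
  · exact S01 a
  · exact S02 a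
  · exact (S01 a).symm
  · rfl
  · exact S12 a
  · exact (S02 a).symm
  · exact (S12 a).symm
  · rfl

/-! ### the embedding in the `11 × 11` matrices -/

/-- the embedding of `ℂ^10` in `ℂ^11` -/
def W : Matrix (Fin 11) (Fin 10) ℂ := fun i k => if i = k.castSucc then 1 else 0

lemma WW : Wᴴ * W = 1 := by
  ext i j
  simp only [Matrix.mul_apply, conjTranspose_apply, W, Matrix.one_apply]
  rw [Finset.sum_eq_single i.castSucc]
  · by_cases h : i = j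
    · subst h; simp
    · simp [h]
  · intro b _ hb; simp [hb]
  · simp

/-- `j a = W a Wᴴ` -/
def jj (a : Matrix (Fin 10) (Fin 10) ℂ) : Matrix (Fin 11) (Fin 11) ℂ := W * a * Wᴴ

lemma jj_mul (a b : Matrix (Fin 10) (Fin 10) ℂ) : jj (a * b) = jj a * jj b := by
  unfold jj
  calc W * (a * b) * Wᴴ = W * a * (1 : Matrix (Fin 10) (Fin 10) ℂ) * b * Wᴴ := by
        simp [Matrix.mul_assoc]
    _ = W * a * (Wᴴ * W) * b * Wᴴ := by rw [WW]
    _ = W * a * Wᴴ * (W * b * Wᴴ) := by simp only [Matrix.mul_assoc]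

lemma jj_ct (a : Matrix (Fin 10) (Fin 10) ℂ) : jj aᴴ = (jj a)ᴴ := by
  unfold jj
  simp [conjTranspose_mul, Matrix.mul_assoc]

lemma jj_add (a b : Matrix (Fin 10) (Fin 10) ℂ) : jj (a + b) = jj a + jj b := by
  unfold jj; rw [Matrix.mul_add, Matrix.add_mul]

lemma jj_smul (c : ℂ) (a : Matrix (Fin 10) (Fin 10) ℂ) : jj (c • a) = c • jj a := by
  unfold jj; rw [Matrix.mul_smul, Matrix.smul_mul]

/-- the embedding as a homomorphism -/
def jh : Matrix (Fin 10) (Fin 10) ℂ →⋆ₙₐ[ℂ] Matrix (Fin 11) (Fin 11) ℂ where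
  toFun := jj
  map_smul' := jj_smul
  map_zero' := by simp [jj]
  map_add' := jj_add
  map_mul' := jj_mul
  map_star' := jj_ct

lemma jj_sub (a b : Matrix (Fin 10) (Fin 10) ℂ) : jj (a - b) = jj a - jj b := by
  unfold jj; rw [Matrix.mul_sub, Matrix.sub_mul]

lemma W_last (k : Fin 10) : W (Fin.last 10) k = 0 := by
  unfold W
  rw [if_neg (Fin.castSucc_lt_last k).ne']

lemma jj_last_left (a : Matrix (Fin 10) (Fin 10) ℂ) (k : Fin 11) : jj a (Fin.last 10) k = 0 := by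
  unfold jj
  rw [Matrix.mul_assoc, Matrix.mul_apply]
  apply Finset.sum_eq_zero
  intro x _
  rw [W_last, zero_mul]

lemma jj_last_right (a : Matrix (Fin 10) (Fin 10) ℂ) (k : Fin 11) : jj a k (Fin.last 10) = 0 := by
  unfold jj
  rw [Matrix.mul_apply]
  apply Finset.sum_eq_zero
  intro x _
  rw [conjTranspose_apply, W_last, star_zero, mul_zero]

lemma jj_inj (a : Matrix (Fin 10) (Fin 10) ℂ) (h : jj a = 0) : a = 0 := by
  have : Wᴴ * jj a * W = a := by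
    unfold jj
    calc Wᴴ * (W * a * Wᴴ) * W = (Wᴴ * W) * a * (Wᴴ * W) := by simp only [Matrix.mul_assoc]
      _ = a := by rw [WW]; simp
  rw [← this, h]; simp

/-- the defect operators in dimension `11` -/
noncomputable def Dm (i : Fin 3) : Matrix (Fin 11) (Fin 11) ℂ := jj (Dk i) + (1 - jj 1)

lemma Dm_sq (i : Fin 3) :
    (Dm i)ᴴ * Dm i = 1 - ∑ l, (jj (Kr i l))ᴴ * jj (Kr i l) := by
  have h1 : ∀ a, jj a * (1 - jj 1) = 0 := by
    intro a; rw [Matrix.mul_sub, ← jj_mul]; simp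
  have h2 : ∀ a, (1 - jj 1) * jj a = 0 := by
    intro a; rw [Matrix.sub_mul, ← jj_mul]; simp
  have h3 : (1 - jj 1)ᴴ = 1 - jj 1 := by
    rw [conjTranspose_sub, ← jj_ct]; simp
  have h4 : (1 - jj 1) * (1 - jj 1) = 1 - jj 1 := by
    rw [Matrix.mul_sub, h2]; simp
  unfold Dm
  rw [conjTranspose_add, h3, Matrix.add_mul, Matrix.mul_add, Matrix.mul_add, ← jj_ct, h1, h2, h4,
    ← jj_mul]
  have h5 : (Dk i)ᴴ * Dk i = 1 - ∑ l, (Kr i l)ᴴ * Kr i l := by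
    rw [← defect i]; abel
  have h6 : jj (∑ l, (Kr i l)ᴴ * Kr i l) = ∑ l, (jj (Kr i l))ᴴ * jj (Kr i l) := by
    have : jj (∑ l, (Kr i l)ᴴ * Kr i l) = jh (∑ l, (Kr i l)ᴴ * Kr i l) := rfl
    rw [this, map_sum]
    refine Finset.sum_congr rfl fun l _ => ?_
    show jj _ = _
    rw [jj_mul, jj_ct]
  rw [h5, jj_sub, h6]
  abel

/-- all Kraus operators in dimension `11` -/
noncomputable def LM (i : Fin 3) : Fin 2 ⊕ Fin 11 → Matrix (Fin 11) (Fin 11) ℂ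
  | .inl l => jj (Kr i l)
  | .inr m => single (Fin.last 10) m (1 : ℂ) * Dm i

/-- the unital maps `∑ Lᴴ a L` -/
noncomputable def TM (i : Fin 3) (a : Matrix (Fin 11) (Fin 11) ℂ) : Matrix (Fin 11) (Fin 11) ℂ :=
  ∑ k, (LM i k)ᴴ * a * LM i k

/-- `∑ jj(K)ᴴ a jj(K)` -/
noncomputable def S' (i : Fin 3) (a : Matrix (Fin 11) (Fin 11) ℂ) :
    Matrix (Fin 11) (Fin 11) ℂ := ∑ l, (jj (Kr i l))ᴴ * a * jj (Kr i l)

lemma TM_eq (i : Fin 3) (a : Matrix (Fin 11) (Fin 11) ℂ) :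
    TM i a = S' i a + a (Fin.last 10) (Fin.last 10) • (1 - S' i 1) := by
  unfold TM S'
  rw [Fintype.sum_sum_type]
  congr 1
  have : ∀ m : Fin 11, (LM i (Sum.inr m))ᴴ * a * LM i (Sum.inr m)
      = a (Fin.last 10) (Fin.last 10) • ((Dm i)ᴴ * single m m (1 : ℂ) * Dm i) := by
    intro m
    show (single (Fin.last 10) m (1 : ℂ) * Dm i)ᴴ * a * (single (Fin.last 10) m (1 : ℂ) * Dm i) = _
    rw [conjTranspose_mul, conjTranspose_single, star_one]
    calc (Dm i)ᴴ * single m (Fin.last 10) (1 : ℂ) * a * (single (Fin.last 10) m (1 : ℂ) * Dm i)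
        = (Dm i)ᴴ * (single m (Fin.last 10) (1 : ℂ) * a * single (Fin.last 10) m (1 : ℂ)) * Dm i :=
          by simp only [Matrix.mul_assoc]
      _ = _ := by
          rw [single_mul_mul_single, Matrix.mul_smul, Matrix.smul_mul]
  simp_rw [this]
  rw [← Finset.smul_sum, ← Finset.sum_mul, ← Finset.mul_sum, sum_single_diag, Matrix.mul_one, Dm_sq]
  simp

lemma S'_jj (i : Fin 3) (a : Matrix (Fin 10) (Fin 10) ℂ) : S' i (jj a) = jj (S i a) := by
  unfold S' S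
  have : jj (∑ l, (Kr i l)ᴴ * a * Kr i l) = jh (∑ l, (Kr i l)ᴴ * a * Kr i l) := rfl
  rw [this, map_sum]
  refine Finset.sum_congr rfl fun l _ => ?_
  show _ = jj _
  rw [jj_mul, jj_mul, jj_ct]

/-- compression to the corner -/
lemma S'_comp (i : Fin 3) (a : Matrix (Fin 11) (Fin 11) ℂ) :
    S' i a = jj (S i (Wᴴ * a * W)) := by
  rw [← S'_jj]
  unfold S'
  refine Finset.sum_congr rfl fun l _ => ?_
  have h : jj (Wᴴ * a * W) = jj 1 * a * jj 1 := by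
    unfold jj; simp only [Matrix.mul_assoc, Matrix.mul_one, Matrix.one_mul]
  rw [h]
  have h1 : (jj (Kr i l))ᴴ * jj 1 = (jj (Kr i l))ᴴ := by
    rw [← jj_ct, ← jj_mul, Matrix.mul_one]
  have h2 : jj 1 * jj (Kr i l) = jj (Kr i l) := by
    rw [← jj_mul, Matrix.one_mul]
  calc (jj (Kr i l))ᴴ * a * jj (Kr i l)
      = ((jj (Kr i l))ᴴ * jj 1) * a * (jj 1 * jj (Kr i l)) := by rw [h1, h2]
    _ = _ := by simp only [Matrix.mul_assoc]

lemma S'_comm (i k : Fin 3) (a : Matrix (Fin 11) (Fin 11) ℂ) : S' i (S' k a) = S' k (S' i a) := by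
  rw [S'_comp k a, S'_comp i a, S'_jj, S'_jj, S_comm]

lemma S'_sub (i : Fin 3) (a b : Matrix (Fin 11) (Fin 11) ℂ) :
    S' i (a - b) = S' i a - S' i b := by
  unfold S'
  rw [← Finset.sum_sub_distrib]
  refine Finset.sum_congr rfl fun l _ => ?_
  rw [Matrix.mul_sub, Matrix.sub_mul]

lemma S'_add (i : Fin 3) (a b : Matrix (Fin 11) (Fin 11) ℂ) :
    S' i (a + b) = S' i a + S' i b := by
  unfold S'
  rw [← Finset.sum_add_distrib]
  refine Finset.sum_congr rfl fun l _ => ?_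
  rw [Matrix.mul_add, Matrix.add_mul]

lemma S'_smul (i : Fin 3) (c : ℂ) (a : Matrix (Fin 11) (Fin 11) ℂ) :
    S' i (c • a) = c • S' i a := by
  unfold S'
  rw [Finset.smul_sum]
  refine Finset.sum_congr rfl fun l _ => ?_
  rw [Matrix.mul_smul, Matrix.smul_mul]

lemma S'_last (i : Fin 3) (a : Matrix (Fin 11) (Fin 11) ℂ) :
    S' i a (Fin.last 10) (Fin.last 10) = 0 := by
  rw [S'_comp, jj_last_left]

lemma TM_last (i : Fin 3) (a : Matrix (Fin 11) (Fin 11) ℂ) :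
    TM i a (Fin.last 10) (Fin.last 10) = a (Fin.last 10) (Fin.last 10) := by
  rw [TM_eq, Matrix.add_apply, Matrix.smul_apply, Matrix.sub_apply, S'_last, S'_last]
  simp

lemma TM_one (i : Fin 3) : TM i 1 = 1 := by
  rw [TM_eq]; simp

lemma TM_comm (i k : Fin 3) (a : Matrix (Fin 11) (Fin 11) ℂ) : TM i (TM k a) = TM k (TM i a) := by
  rw [TM_eq i (TM k a), TM_eq k (TM i a), TM_last, TM_last, TM_eq k a, TM_eq i a, S'_add, S'_add,
    S'_smul, S'_smul, S'_sub, S'_sub, S'_comm i k a, S'_comm i k 1]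
  module

lemma TM_jj (i : Fin 3) (a : Matrix (Fin 10) (Fin 10) ℂ) : TM i (jj a) = jj (S i a) := by
  rw [TM_eq, jj_last_left, zero_smul, add_zero, S'_jj]

/-! ### the abstract theorem -/

section Main

variable {R : Type*} [Ring R] [StarRing R] [Algebra ℂ R] [StarModule ℂ R]

theorem no_dilation (hpos : ∀ x : R, star x * x = 0 → x = 0)
    (ι : Matrix (Fin 11) (Fin 11) ℂ →⋆ₙₐ[ℂ] R) (hinj : ∀ a, ι a = 0 → a = 0)
    (θ : Fin 3 → R →⋆ₙₐ[ℂ] R) (hcomm : ∀ i k x, θ i (θ k x) = θ k (θ i x))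
    (hd : ∀ i a, ι 1 * θ i (ι a) * ι 1 = ι (TM i a)) : False := by
  set q : R := ι (jj 1) with hq
  have hp2 : ι 1 * ι 1 = ι 1 := by rw [← map_mul, Matrix.one_mul]
  have hps : star (ι 1) = ι 1 := by rw [← map_star, star_one]
  have hq2 : q * q = q := by rw [hq, ← map_mul, ← jj_mul, Matrix.one_mul]
  have hqs : star q = q := by
    rw [hq, ← map_star]
    congr 1
    show (jj 1)ᴴ = jj 1
    rw [← jj_ct, conjTranspose_one]
  have hpq : ι 1 * q = q := by rw [hq, ← map_mul, Matrix.one_mul]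
  have hqp : q * ι 1 = q := by rw [hq, ← map_mul, Matrix.mul_one]
  -- the endomorphisms enlarge the unit of the corner
  have hA : ∀ i, θ i (ι 1) * ι 1 = ι 1 := by
    intro i
    have h1 := hd i 1
    rw [TM_one] at h1
    have h0 : star (ι 1 - θ i (ι 1) * ι 1) * (ι 1 - θ i (ι 1) * ι 1) = 0 := by
      rw [star_sub, star_mul, hps, ← map_star (θ i), hps, sub_mul, mul_sub, mul_sub]
      have e1 : ι 1 * (θ i (ι 1) * ι 1) = ι 1 := by rw [← mul_assoc, h1]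
      have e2 : ι 1 * θ i (ι 1) * ι 1 = ι 1 := h1
      have e3 : ι 1 * θ i (ι 1) * (θ i (ι 1) * ι 1) = ι 1 := by
        rw [mul_assoc, ← mul_assoc (θ i (ι 1)), ← map_mul, hp2, ← mul_assoc, h1]
      rw [e1, e2, e3, hp2]
      simp
    exact (sub_eq_zero.mp (hpos _ h0)).symm
  have hB : ∀ i, θ i q * (ι 1 - q) = 0 := by
    intro i
    have h1 := hd i (jj 1)
    rw [TM_jj, ← hq] at h1
    apply hpos
    have e : star (θ i q * (ι 1 - q)) * (θ i q * (ι 1 - q))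
        = (ι 1 - q) * (ι 1 * θ i q * ι 1) * (ι 1 - q) := by
      rw [star_mul, star_sub, ← map_star (θ i), hqs, hps]
      have e1 : (ι 1 - q) * ι 1 = ι 1 - q := by rw [sub_mul, hp2, hqp]
      have e2 : ι 1 * (ι 1 - q) = ι 1 - q := by rw [mul_sub, hp2, hpq]
      calc (ι 1 - q) * θ i q * (θ i q * (ι 1 - q))
          = (ι 1 - q) * (θ i q * θ i q) * (ι 1 - q) := by noncomm_ring
        _ = (ι 1 - q) * θ i q * (ι 1 - q) := by rw [← map_mul, hq2]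
        _ = ((ι 1 - q) * ι 1) * θ i q * (ι 1 * (ι 1 - q)) := by rw [e1, e2]
        _ = _ := by noncomm_ring
    rw [e, h1]
    have : (ι 1 - q) * ι (jj (S i 1)) = 0 := by
      rw [sub_mul, hq, ← map_mul, ← map_mul, ← jj_mul, Matrix.one_mul, Matrix.one_mul, sub_self]
    rw [this, zero_mul]
  have hD : ∀ i k, θ k (θ i q * q) * (θ k q * q) = θ k (θ i q) * q := by
    intro i k
    have e1 : q = θ k (ι 1) * q := by
      conv_lhs => rw [← hpq]
      conv_rhs => rw [← hpq]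
      rw [← mul_assoc, hA]
    have e2 : θ k (θ i q) * (θ k (ι 1 - q) * q) = 0 := by
      rw [← mul_assoc, ← map_mul, hB, map_zero, zero_mul]
    rw [map_mul]
    calc θ k (θ i q) * θ k q * (θ k q * q) = θ k (θ i q) * ((θ k q * θ k q) * q) := by
          noncomm_ring
      _ = θ k (θ i q) * (θ k q * q) := by rw [← map_mul, hq2]
      _ = θ k (θ i q) * (θ k q * q) + θ k (θ i q) * (θ k (ι 1 - q) * q) := by rw [e2, add_zero]
      _ = θ k (θ i q) * (θ k (ι 1) * q) := by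
          rw [← mul_add, ← add_mul, ← map_add]; congr 4; abel
      _ = _ := by rw [← e1]
  have hc : ∀ i k, θ k (θ i q * q) * (θ k q * q) = θ i (θ k q * q) * (θ i q * q) := by
    intro i k
    rw [hD i k, hD k i, hcomm]
  -- the units
  have hu : ∀ i, θ i ((ι.comp jh) 1) * (θ i q * q) = θ i q * q := by
    intro i
    show θ i q * (θ i q * q) = _
    rw [← mul_assoc, ← map_mul, hq2]
  have hk : ∀ i (a : Matrix (Fin 10) (Fin 10) ℂ),
      star (θ i q * q) * θ i ((ι.comp jh) a) * (θ i q * q) = (ι.comp jh) (S i a) := by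
    intro i a
    show star (θ i q * q) * θ i (ι (jj a)) * (θ i q * q) = ι (jj (S i a))
    rw [star_mul, hqs, ← map_star, hqs]
    have e1 : q * ι (jj a) * q = ι (jj a) := by
      rw [hq, ← map_mul, ← map_mul, ← jj_mul, ← jj_mul, Matrix.one_mul, Matrix.mul_one]
    calc q * θ i q * θ i (ι (jj a)) * (θ i q * q)
        = q * (θ i q * θ i (ι (jj a)) * θ i q) * q := by noncomm_ring
      _ = q * θ i (ι (jj a)) * q := by rw [← map_mul, ← map_mul, e1]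
      _ = (q * ι 1) * θ i (ι (jj a)) * (ι 1 * q) := by rw [hpq, hqp]
      _ = q * (ι 1 * θ i (ι (jj a)) * ι 1) * q := by noncomm_ring
      _ = q * ι (TM i (jj a)) * q := by rw [hd]
      _ = _ := by
        rw [TM_jj, hq, ← map_mul, ← map_mul, ← jj_mul, ← jj_mul, Matrix.one_mul, Matrix.mul_one]
  have hne : (ι.comp jh) 1 ≠ 0 := by
    intro h
    have h1 := jj_inj 1 (hinj _ h)
    exact one_ne_zero h1
  have key := hexagon (ι.comp jh) hpos hne (θ 0) (θ 1) (θ 2) (hcomm 0 1) (hcomm 0 2) (hcomm 1 2)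
    (θ 0 q * q) (θ 1 q * q) (θ 2 q * q) (hu 0) (hu 1) (hu 2) Ak Bk Ck
    (fun a => hk 0 a) (fun a => by rw [hk 1 a, S1]) (fun a => by rw [hk 2 a, S2])
    (hc 0 1) (hc 0 2) (hc 1 2) 0 ![3, 4] 1 2 5 ![6, 7] ![8, 9] (2 / 3) (by norm_num)
    ?_ ?_ ?_ !![0, 1; 1, 0] !![1, 0; 0, -1] ?_ ?_ ?_ ?_ ?_ ?_
  · have h01 := congrFun (congrFun key 0) 1
    simp [Matrix.mul_apply, Fin.sum_univ_two] at h01
    norm_num at h01
  · intro l l'
    fin_cases l <;> fin_cases l' <;>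
      simp [Ak, cm_apply, A0Z, A1Z]
  · simp [Bk, cm_apply, BZ]
  · simp [Ck, cm_apply, CZ]
  · intro k l
    fin_cases k <;> fin_cases l
    · show (Ak 0 * Bk) 6 0 = 2 / 3 * 0
      rw [show Ak 0 * Bk = (2 / 3 : ℂ) • cm (A0Z * BZ) by
        rw [cm_mul, ← Matrix.smul_mul]; rfl, Matrix.smul_apply, cm_apply,
        show (A0Z * BZ) 6 0 = 0 by decide +kernel]
      simp
    · show (Ak 0 * Bk) 7 0 = 2 / 3 * 1
      rw [show Ak 0 * Bk = (2 / 3 : ℂ) • cm (A0Z * BZ) by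
        rw [cm_mul, ← Matrix.smul_mul]; rfl, Matrix.smul_apply, cm_apply,
        show (A0Z * BZ) 7 0 = 1 by decide +kernel]
      simp
    · show (Ak 1 * Bk) 6 0 = 2 / 3 * 1
      rw [show Ak 1 * Bk = (2 / 3 : ℂ) • cm (A1Z * BZ) by
        rw [cm_mul, ← Matrix.smul_mul]; rfl, Matrix.smul_apply, cm_apply,
        show (A1Z * BZ) 6 0 = 1 by decide +kernel]
      simp
    · show (Ak 1 * Bk) 7 0 = 2 / 3 * 0
      rw [show Ak 1 * Bk = (2 / 3 : ℂ) • cm (A1Z * BZ) by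
        rw [cm_mul, ← Matrix.smul_mul]; rfl, Matrix.smul_apply, cm_apply,
        show (A1Z * BZ) 7 0 = 0 by decide +kernel]
      simp
  · intro k l
    fin_cases k <;> fin_cases l
    · show (Bk * Ak 0) 6 0 = 2 / 3
      rw [show Bk * Ak 0 = (2 / 3 : ℂ) • cm (BZ * A0Z) by
        rw [cm_mul, ← Matrix.mul_smul]; rfl, Matrix.smul_apply, cm_apply,
        show (BZ * A0Z) 6 0 = 1 by decide +kernel]
      simp
    · show (Bk * Ak 0) 7 0 = 0
      rw [show Bk * Ak 0 = (2 / 3 : ℂ) • cm (BZ * A0Z) by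
        rw [cm_mul, ← Matrix.mul_smul]; rfl, Matrix.smul_apply, cm_apply,
        show (BZ * A0Z) 7 0 = 0 by decide +kernel]
      simp
    · show (Bk * Ak 1) 6 0 = 0
      rw [show Bk * Ak 1 = (2 / 3 : ℂ) • cm (BZ * A1Z) by
        rw [cm_mul, ← Matrix.mul_smul]; rfl, Matrix.smul_apply, cm_apply,
        show (BZ * A1Z) 6 0 = 0 by decide +kernel]
      simp
    · show (Bk * Ak 1) 7 0 = 2 / 3
      rw [show Bk * Ak 1 = (2 / 3 : ℂ) • cm (BZ * A1Z) by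
        rw [cm_mul, ← Matrix.mul_smul]; rfl, Matrix.smul_apply, cm_apply,
        show (BZ * A1Z) 7 0 = 1 by decide +kernel]
      simp
  · intro k l
    fin_cases k <;> fin_cases l
    · show (Ak 0 * Ck) 8 0 = 2 / 3 * 1
      rw [show Ak 0 * Ck = (2 / 3 : ℂ) • cm (A0Z * CZ) by
        rw [cm_mul, ← Matrix.smul_mul]; rfl, Matrix.smul_apply, cm_apply,
        show (A0Z * CZ) 8 0 = 1 by decide +kernel]
      simp
    · show (Ak 0 * Ck) 9 0 = 2 / 3 * 0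
      rw [show Ak 0 * Ck = (2 / 3 : ℂ) • cm (A0Z * CZ) by
        rw [cm_mul, ← Matrix.smul_mul]; rfl, Matrix.smul_apply, cm_apply,
        show (A0Z * CZ) 9 0 = 0 by decide +kernel]
      simp
    · show (Ak 1 * Ck) 8 0 = 2 / 3 * 0
      rw [show Ak 1 * Ck = (2 / 3 : ℂ) • cm (A1Z * CZ) by
        rw [cm_mul, ← Matrix.smul_mul]; rfl, Matrix.smul_apply, cm_apply,
        show (A1Z * CZ) 8 0 = 0 by decide +kernel]
      simp
    · show (Ak 1 * Ck) 9 0 = 2 / 3 * -1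
      rw [show Ak 1 * Ck = (2 / 3 : ℂ) • cm (A1Z * CZ) by
        rw [cm_mul, ← Matrix.smul_mul]; rfl, Matrix.smul_apply, cm_apply,
        show (A1Z * CZ) 9 0 = -1 by decide +kernel]
      simp
  · intro k l
    fin_cases k <;> fin_cases l
    · show (Ck * Ak 0) 8 0 = 2 / 3
      rw [show Ck * Ak 0 = (2 / 3 : ℂ) • cm (CZ * A0Z) by
        rw [cm_mul, ← Matrix.mul_smul]; rfl, Matrix.smul_apply, cm_apply,
        show (CZ * A0Z) 8 0 = 1 by decide +kernel]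
      simp
    · show (Ck * Ak 0) 9 0 = 0
      rw [show Ck * Ak 0 = (2 / 3 : ℂ) • cm (CZ * A0Z) by
        rw [cm_mul, ← Matrix.mul_smul]; rfl, Matrix.smul_apply, cm_apply,
        show (CZ * A0Z) 9 0 = 0 by decide +kernel]
      simp
    · show (Ck * Ak 1) 8 0 = 0
      rw [show Ck * Ak 1 = (2 / 3 : ℂ) • cm (CZ * A1Z) by
        rw [cm_mul, ← Matrix.mul_smul]; rfl, Matrix.smul_apply, cm_apply,
        show (CZ * A1Z) 8 0 = 0 by decide +kernel]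
      simp
    · show (Ck * Ak 1) 9 0 = 2 / 3
      rw [show Ck * Ak 1 = (2 / 3 : ℂ) • cm (CZ * A1Z) by
        rw [cm_mul, ← Matrix.mul_smul]; rfl, Matrix.smul_apply, cm_apply,
        show (CZ * A1Z) 9 0 = 1 by decide +kernel]
      simp
  · show (cm BZ * cm CZ) 5 0 = 1
    rw [← cm_mul, cm_apply, show (BZ * CZ) 5 0 = 1 by decide +kernel]
    simp
  · show (cm CZ * cm BZ) 5 0 = 1
    rw [← cm_mul, cm_apply, show (CZ * BZ) 5 0 = 1 by decide +kernel]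
    simp

end Main

end Pool.Agent.N236.CP
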