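import Mathlib
set_option autoImplicit false
open Matrix

/-!
# Intertwiners obtained from a unit of a correspondence over a matrix algebra

`R` is a ring with involution, `ι` a copy of the matrix algebra in `R`, `θ` a `*`-endomorphism of `R`
and `ξ ∈ R` with `ξ* θ(ι a) ξ = ι (∑ K_l* a K_l)`. If the Kraus operators `K_l` are biorthogonal to some
matrix entries, then `ξ = ∑ x_l ι(K_l)` with orthonormal intertwiners `x_l`, `θ(ι a) x_l = x_l ι(a)`.
-/

namespace Pool.Agent.N236.CP

section Gen

variable {R : Type*} [Ring R] [StarRing R] [Algebra ℂ R] [StarModule ℂ R]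
variable {n : Type*} [Fintype n] [DecidableEq n]
variable {κ : Type*} [Fintype κ] [DecidableEq κ]

lemma mul_single_eq (a : Matrix n n ℂ) (m α : n) :
    a * single m α (1 : ℂ) = ∑ p, a p m • single p α (1 : ℂ) := by
  ext i j
  simp only [Matrix.mul_apply, Matrix.sum_apply, Matrix.smul_apply, single_apply, smul_eq_mul]
  by_cases h : α = j <;> simp [h, eq_comm]

lemma single_mul_eq (a : Matrix n n ℂ) (o m : n) :
    single o m (1 : ℂ) * a = ∑ r, a m r • single o r (1 : ℂ) := by
  ext i j
  simp only [Matrix.mul_apply, Matrix.sum_apply, Matrix.smul_apply, single_apply, smul_eq_mul]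
  by_cases h : o = i <;> simp [h, eq_comm]

lemma single_mul_mul_single (M : Matrix n n ℂ) (m α o m' : n) :
    single m α (1 : ℂ) * M * single o m' (1 : ℂ) = M α o • single m m' (1 : ℂ) := by
  ext i j
  simp [Matrix.mul_apply, single_apply, Finset.sum_ite_eq, Finset.sum_mul]
  by_cases h : m = i <;> by_cases h' : m' = j <;> simp [h, h']

lemma sum_single_diag : ∑ m : n, single m m (1 : ℂ) = (1 : Matrix n n ℂ) := by
  ext i j
  rw [Matrix.sum_apply, Finset.sum_eq_single i]
  · simp [single_apply, Matrix.one_apply]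
  · intro b _ hb; simp [single_apply, hb]
  · simp

lemma mul_single_mul_apply (A B : Matrix n n ℂ) (α β i j : n) :
    (A * single α β (1 : ℂ) * B) i j = A i α * B β j := by
  rw [Matrix.mul_assoc, Matrix.mul_apply, Finset.sum_eq_single α]
  · rw [Matrix.mul_apply, Finset.sum_eq_single β]
    · simp [single_apply]
    · intro b _ hb; simp [single_apply, Ne.symm hb]
    · simp
  · intro b _ hb
    rw [Matrix.mul_apply, Finset.sum_eq_zero]
    · simp
    · intro x _; simp [single_apply, Ne.symm hb]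
  · simp

/-- The intertwiner with index `α`. -/
noncomputable def X (ι : Matrix n n ℂ →⋆ₙₐ[ℂ] R) (θ : R →⋆ₙₐ[ℂ] R) (o : n) (ξ : R) (α : n) : R :=
  ∑ m, θ (ι (single m α (1 : ℂ))) * ξ * ι (single o m (1 : ℂ))

variable (ι : Matrix n n ℂ →⋆ₙₐ[ℂ] R) (θ : R →⋆ₙₐ[ℂ] R) (o : n) (ξ : R)

lemma X_inter (α : n) (a : Matrix n n ℂ) : θ (ι a) * X ι θ o ξ α = X ι θ o ξ α * ι a := by
  unfold X
  rw [Finset.mul_sum, Finset.sum_mul]
  have h1 : ∀ m : n, θ (ι a) * (θ (ι (single m α (1 : ℂ))) * ξ * ι (single o m (1 : ℂ)))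
      = ∑ p, a p m • (θ (ι (single p α (1 : ℂ))) * ξ * ι (single o m (1 : ℂ))) := by
    intro m
    rw [← mul_assoc, ← mul_assoc, ← map_mul, ← map_mul, mul_single_eq, map_sum, map_sum,
      Finset.sum_mul, Finset.sum_mul]
    refine Finset.sum_congr rfl fun p _ => ?_
    rw [map_smul, map_smul, smul_mul_assoc, smul_mul_assoc]
  have h2 : ∀ m : n, θ (ι (single m α (1 : ℂ))) * ξ * ι (single o m (1 : ℂ)) * ι a
      = ∑ r, a m r • (θ (ι (single m α (1 : ℂ))) * ξ * ι (single o r (1 : ℂ))) := by
    intro m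
    rw [mul_assoc, ← map_mul, single_mul_eq, map_sum, Finset.mul_sum]
    refine Finset.sum_congr rfl fun p _ => ?_
    rw [map_smul, mul_smul_comm]
  simp_rw [h1, h2]
  rw [Finset.sum_comm]

lemma X_one (α : n) : X ι θ o ξ α * ι 1 = X ι θ o ξ α := by
  unfold X
  rw [Finset.sum_mul]
  refine Finset.sum_congr rfl fun m _ => ?_
  rw [mul_assoc, ← map_mul, mul_one]

lemma X_one' (α : n) : θ (ι 1) * X ι θ o ξ α = X ι θ o ξ α := by
  rw [X_inter, X_one]

variable (K : κ → Matrix n n ℂ)

lemma star_X (α : n) : star (X ι θ o ξ α)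
    = ∑ m, ι (single m o (1 : ℂ)) * star ξ * θ (ι (single α m (1 : ℂ))) := by
  unfold X
  rw [star_sum]
  refine Finset.sum_congr rfl fun m _ => ?_
  rw [star_mul, star_mul, ← map_star, ← map_star, ← map_star, star_eq_conjTranspose,
    star_eq_conjTranspose, conjTranspose_single, conjTranspose_single, star_one, mul_assoc]

lemma star_X_mul_X (hξ : ∀ a, star ξ * θ (ι a) * ξ = ι (∑ l, (K l)ᴴ * a * K l)) (α β : n) :
    star (X ι θ o ξ α) * X ι θ o ξ β
      = (∑ l, (starRingEnd ℂ) (K l α o) * K l β o) • ι 1 := by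
  rw [star_X, X, Finset.sum_mul]
  have h : ∀ m : n, ι (single m o (1 : ℂ)) * star ξ * θ (ι (single α m (1 : ℂ))) *
      (∑ m', θ (ι (single m' β (1 : ℂ))) * ξ * ι (single o m' (1 : ℂ)))
      = (∑ l, (starRingEnd ℂ) (K l α o) * K l β o) • ι (single m m (1 : ℂ)) := by
    intro m
    rw [Finset.mul_sum]
    have h' : ∀ m' : n, ι (single m o (1 : ℂ)) * star ξ * θ (ι (single α m (1 : ℂ))) *
        (θ (ι (single m' β (1 : ℂ))) * ξ * ι (single o m' (1 : ℂ)))
        = if m = m' then
          (∑ l, (starRingEnd ℂ) (K l α o) * K l β o) • ι (single m m (1 : ℂ)) else 0 := by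
      intro m'
      have e1 : ι (single m o (1 : ℂ)) * star ξ * θ (ι (single α m (1 : ℂ))) *
        (θ (ι (single m' β (1 : ℂ))) * ξ * ι (single o m' (1 : ℂ)))
        = ι (single m o (1 : ℂ)) *
          (star ξ * θ (ι (single α m (1 : ℂ) * single m' β (1 : ℂ))) * ξ) *
            ι (single o m' (1 : ℂ)) := by
        rw [map_mul, map_mul]; noncomm_ring
      rw [e1]
      split_ifs with hm
      · subst hm
        rw [single_mul_single_same, mul_one, hξ, ← map_mul, ← map_mul, single_mul_mul_single,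
          map_smul]
        congr 1
        rw [Matrix.sum_apply]
        refine Finset.sum_congr rfl fun l _ => ?_
        rw [mul_single_mul_apply, conjTranspose_apply]
        rfl
      · rw [single_mul_single_of_ne _ _ _ _ hm, map_zero, map_zero]
        simp
    simp_rw [h']
    rw [Finset.sum_ite_eq]
    simp
  simp_rw [h]
  rw [← Finset.smul_sum, ← map_sum, sum_single_diag]

lemma star_xi_mul_X (hξ : ∀ a, star ξ * θ (ι a) * ξ = ι (∑ l, (K l)ᴴ * a * K l)) (α : n) :
    star ξ * X ι θ o ξ α = ∑ l, K l α o • ι (K l)ᴴ := by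
  unfold X
  rw [Finset.mul_sum]
  have h : ∀ m : n, star ξ * (θ (ι (single m α (1 : ℂ))) * ξ * ι (single o m (1 : ℂ)))
      = ∑ l, K l α o • ι ((K l)ᴴ * single m m (1 : ℂ)) := by
    intro m
    rw [← mul_assoc, ← mul_assoc, hξ, ← map_mul, Finset.sum_mul, map_sum]
    refine Finset.sum_congr rfl fun l _ => ?_
    rw [mul_assoc, mul_assoc, ← mul_assoc (single m α (1 : ℂ)), single_mul_mul_single,
      mul_smul_comm, map_smul]
  simp_rw [h]
  rw [Finset.sum_comm]
  refine Finset.sum_congr rfl fun l _ => ?_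
  rw [← Finset.smul_sum, ← map_sum, ← Finset.mul_sum, sum_single_diag, mul_one]

/-- Decomposition of the unit. -/
theorem exists_inter (hpos : ∀ x : R, star x * x = 0 → x = 0)
    (hξ1 : θ (ι 1) * ξ = ξ)
    (hξ : ∀ a, star ξ * θ (ι a) * ξ = ι (∑ l, (K l)ᴴ * a * K l))
    (α : κ → n) (c : ℂ) (hc : c ≠ 0) (hK : ∀ l l', K l' (α l) o = if l' = l then c else 0) :
    ∃ x : κ → R, (∀ l a, θ (ι a) * x l = x l * ι a) ∧
      (∀ l l', star (x l) * x l' = if l = l' then ι 1 else 0) ∧
      (∀ l, x l * ι 1 = x l) ∧ ξ = ∑ l, x l * ι (K l) := by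
  set x : κ → R := fun l => c⁻¹ • X ι θ o ξ (α l) with hx
  have hxi : ∀ l, star ξ * x l = ι (K l)ᴴ := by
    intro l
    simp only [hx]
    rw [mul_smul_comm, star_xi_mul_X ι θ o ξ K hξ]
    simp_rw [hK]
    rw [Finset.sum_eq_single l]
    · simp [smul_smul, hc]
    · intro b _ hb; simp [hb]
    · simp
  have hcc : star c⁻¹ * c⁻¹ * ((starRingEnd ℂ) c * c) = 1 := by
    have h1 : (starRingEnd ℂ) c ≠ 0 := by simpa using hc
    have : star c⁻¹ = ((starRingEnd ℂ) c)⁻¹ := by rw [star_inv₀]; rfl
    rw [this]; field_simp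
  have hxx : ∀ l l', star (x l) * x l' = if l = l' then ι 1 else 0 := by
    intro l l'
    simp only [hx]
    rw [star_smul, smul_mul_assoc, mul_smul_comm, star_X_mul_X ι θ o ξ K hξ]
    simp_rw [hK]
    by_cases h : l = l'
    · subst h
      simp only [↓reduceIte]
      have : ∑ x : κ, (starRingEnd ℂ) (if x = l then c else 0) * (if x = l then c else 0)
          = (starRingEnd ℂ) c * c := by
        rw [Finset.sum_eq_single l]
        · simp
        · intro b _ hb; simp [hb]
        · simp
      rw [this, smul_smul, smul_smul, hcc, one_smul]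
    · simp only [h, ↓reduceIte]
      have : ∑ x : κ, (starRingEnd ℂ) (if x = l then c else 0) * (if x = l' then c else 0)
          = 0 := by
        apply Finset.sum_eq_zero
        intro b _
        by_cases hb : b = l
        · have : b ≠ l' := fun hb' => h (hb ▸ hb')
          simp [this]
        · simp [hb]
      rw [this]; simp
  have hxs : ∀ l, star (x l) * ξ = ι (K l) := by
    intro l
    have := congrArg star (hxi l)
    rwa [star_mul, star_star, ← map_star, star_eq_conjTranspose, conjTranspose_conjTranspose]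
      at this
  have hss : star ξ * ξ = ∑ l, ι ((K l)ᴴ * K l) := by
    have := hξ 1
    rw [mul_assoc, hξ1] at this
    rw [this, map_sum]
    simp
  have h0 : star (ξ - ∑ l, x l * ι (K l)) * (ξ - ∑ l, x l * ι (K l)) = 0 := by
    rw [star_sub, sub_mul, mul_sub, mul_sub, hss, star_sum]
    have e1 : star ξ * ∑ l, x l * ι (K l) = ∑ l, ι ((K l)ᴴ * K l) := by
      rw [Finset.mul_sum]
      refine Finset.sum_congr rfl fun l _ => ?_
      rw [← mul_assoc, hxi, map_mul]
    have e2 : (∑ l, star (x l * ι (K l))) * ξ = ∑ l, ι ((K l)ᴴ * K l) := by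
      rw [Finset.sum_mul]
      refine Finset.sum_congr rfl fun l _ => ?_
      rw [star_mul, mul_assoc, hxs, map_mul, ← map_star, star_eq_conjTranspose]
    have e3 : (∑ l, star (x l * ι (K l))) * ∑ l, x l * ι (K l) = ∑ l, ι ((K l)ᴴ * K l) := by
      rw [Finset.sum_mul]
      refine Finset.sum_congr rfl fun l _ => ?_
      rw [Finset.mul_sum, Finset.sum_eq_single l]
      · rw [star_mul, mul_assoc, ← mul_assoc (star (x l)), hxx]
        simp only [↓reduceIte]
        rw [← map_mul, one_mul, ← map_star, ← map_mul, star_eq_conjTranspose]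
      · intro b _ hb
        rw [star_mul, mul_assoc, ← mul_assoc (star (x l)), hxx]
        simp [Ne.symm hb]
      · simp
    rw [e1, e2, e3]
    simp
  refine ⟨x, ?_, hxx, ?_, sub_eq_zero.mp (hpos _ h0)⟩
  · intro l a
    simp only [hx]
    rw [mul_smul_comm, smul_mul_assoc, X_inter]
  · intro l
    simp only [hx]
    rw [smul_mul_assoc, X_one]

end Gen

end Pool.Agent.N236.CP
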