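import Pool.Agent.N236.CP.Gen
set_option autoImplicit false
open Matrix

/-!
# The hexagon: commuting endomorphisms permute intertwiners consistently
-/

namespace Pool.Agent.N236.CP

section Hex

variable {R : Type*} [Ring R] [StarRing R] [Algebra ℂ R] [StarModule ℂ R]
variable {n : Type*} [Fintype n] [DecidableEq n]
variable (ι : Matrix n n ℂ →⋆ₙₐ[ℂ] R)

omit [StarModule ℂ R] in
lemma coeff_eq (ψ : R → R) (v : R) (hv : ∀ a, ψ (ι a) * v = v * ι a) (hv1 : v * ι 1 = v)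
    (M : Matrix n n ℂ) (α o : n) :
    ∑ m, ψ (ι (single m α (1 : ℂ))) * (v * ι M) * ι (single o m (1 : ℂ)) = M α o • v := by
  have h : ∀ m : n, ψ (ι (single m α (1 : ℂ))) * (v * ι M) * ι (single o m (1 : ℂ))
      = M α o • (v * ι (single m m (1 : ℂ))) := by
    intro m
    rw [← mul_assoc, hv, mul_assoc, mul_assoc, ← map_mul, ← map_mul, ← mul_assoc,
      single_mul_mul_single, map_smul, mul_smul_comm]
  simp_rw [h]
  rw [← Finset.smul_sum, ← Finset.mul_sum, ← map_sum, sum_single_diag, hv1]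

omit [StarModule ℂ R] in
/-- Comparison of the two products of the units. -/
lemma comm_rel (θ₁ θ₂ : R →⋆ₙₐ[ℂ] R) (h12 : ∀ x, θ₁ (θ₂ x) = θ₂ (θ₁ x))
    {κ κ' : Type*} [Fintype κ] [Fintype κ']
    (x : κ → R) (y : κ' → R) (A : κ → Matrix n n ℂ) (B : κ' → Matrix n n ℂ)
    (hx : ∀ k a, θ₁ (ι a) * x k = x k * ι a) (hy : ∀ k a, θ₂ (ι a) * y k = y k * ι a)
    (hx1 : ∀ k, x k * ι 1 = x k) (hy1 : ∀ k, y k * ι 1 = y k)
    (hc : θ₂ (∑ k, x k * ι (A k)) * (∑ l, y l * ι (B l))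
      = θ₁ (∑ l, y l * ι (B l)) * (∑ k, x k * ι (A k))) (α o : n) :
    ∑ k, ∑ l, (A k * B l) α o • (θ₂ (x k) * y l)
      = ∑ k, ∑ l, (B l * A k) α o • (θ₁ (y l) * x k) := by
  have e1 : θ₂ (∑ k, x k * ι (A k)) * (∑ l, y l * ι (B l))
      = ∑ k, ∑ l, (θ₂ (x k) * y l) * ι (A k * B l) := by
    rw [map_sum, Finset.sum_mul]
    refine Finset.sum_congr rfl fun k _ => ?_
    rw [Finset.mul_sum]
    refine Finset.sum_congr rfl fun l _ => ?_
    rw [map_mul, map_mul, ← mul_assoc, mul_assoc (θ₂ (x k)), hy]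
    noncomm_ring
  have e2 : θ₁ (∑ l, y l * ι (B l)) * (∑ k, x k * ι (A k))
      = ∑ k, ∑ l, (θ₁ (y l) * x k) * ι (B l * A k) := by
    rw [map_sum, Finset.sum_mul, Finset.sum_comm]
    refine Finset.sum_congr rfl fun l _ => ?_
    rw [Finset.mul_sum]
    refine Finset.sum_congr rfl fun k _ => ?_
    rw [map_mul, map_mul, ← mul_assoc, mul_assoc (θ₁ (y l)), hx]
    noncomm_ring
  rw [e1, e2] at hc
  have key := congrArg (fun w => ∑ m, θ₁ (θ₂ (ι (single m α (1 : ℂ)))) * w *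
    ι (single o m (1 : ℂ))) hc
  beta_reduce at key
  have f1 : ∑ m, θ₁ (θ₂ (ι (single m α (1 : ℂ)))) * (∑ k, ∑ l, (θ₂ (x k) * y l) * ι (A k * B l)) *
      ι (single o m (1 : ℂ)) = ∑ k, ∑ l, (A k * B l) α o • (θ₂ (x k) * y l) := by
    simp_rw [Finset.mul_sum, Finset.sum_mul]
    rw [Finset.sum_comm]
    refine Finset.sum_congr rfl fun k _ => ?_
    rw [Finset.sum_comm]
    refine Finset.sum_congr rfl fun l _ => ?_
    refine coeff_eq ι (fun r => θ₁ (θ₂ r)) (θ₂ (x k) * y l) ?_ ?_ _ _ _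
    · intro a
      show θ₁ (θ₂ (ι a)) * (θ₂ (x k) * y l) = _
      rw [h12, ← mul_assoc, ← map_mul, hx, map_mul, mul_assoc, hy, mul_assoc]
    · rw [mul_assoc, hy1]
  have f2 : ∑ m, θ₁ (θ₂ (ι (single m α (1 : ℂ)))) * (∑ k, ∑ l, (θ₁ (y l) * x k) * ι (B l * A k)) *
      ι (single o m (1 : ℂ)) = ∑ k, ∑ l, (B l * A k) α o • (θ₁ (y l) * x k) := by
    simp_rw [Finset.mul_sum, Finset.sum_mul]
    rw [Finset.sum_comm]
    refine Finset.sum_congr rfl fun k _ => ?_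
    rw [Finset.sum_comm]
    refine Finset.sum_congr rfl fun l _ => ?_
    refine coeff_eq ι (fun r => θ₁ (θ₂ r)) (θ₁ (y l) * x k) ?_ ?_ _ _ _
    · intro a
      show θ₁ (θ₂ (ι a)) * (θ₁ (y l) * x k) = _
      rw [← mul_assoc, ← map_mul, hy, map_mul, mul_assoc, hx, mul_assoc]
    · rw [mul_assoc, hx1]
  rw [f1, f2] at key
  exact key

/-- The contradiction. `A 0, A 1`, `B`, `C` are the Kraus operators of three commuting maps with
`A k B = ∑ U k l B A l`, `A k C = ∑ V k l C A l`, `B C = C B` (needed only in one column `o`) and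
`U V ≠ V U`. -/
theorem hexagon (hpos : ∀ x : R, star x * x = 0 → x = 0) (hne : ι 1 ≠ 0)
    (θ₁ θ₂ θ₃ : R →⋆ₙₐ[ℂ] R) (h12 : ∀ x, θ₁ (θ₂ x) = θ₂ (θ₁ x))
    (h13 : ∀ x, θ₁ (θ₃ x) = θ₃ (θ₁ x)) (h23 : ∀ x, θ₂ (θ₃ x) = θ₃ (θ₂ x))
    (ξ₁ ξ₂ ξ₃ : R) (u1 : θ₁ (ι 1) * ξ₁ = ξ₁) (u2 : θ₂ (ι 1) * ξ₂ = ξ₂)
    (u3 : θ₃ (ι 1) * ξ₃ = ξ₃)
    (A : Fin 2 → Matrix n n ℂ) (B C : Matrix n n ℂ)
    (k1 : ∀ a, star ξ₁ * θ₁ (ι a) * ξ₁ = ι (∑ l, (A l)ᴴ * a * A l))
    (k2 : ∀ a, star ξ₂ * θ₂ (ι a) * ξ₂ = ι (Bᴴ * a * B))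
    (k3 : ∀ a, star ξ₃ * θ₃ (ι a) * ξ₃ = ι (Cᴴ * a * C))
    (c12 : θ₂ ξ₁ * ξ₂ = θ₁ ξ₂ * ξ₁) (c13 : θ₃ ξ₁ * ξ₃ = θ₁ ξ₃ * ξ₁)
    (c23 : θ₃ ξ₂ * ξ₃ = θ₂ ξ₃ * ξ₂)
    (o : n) (a : Fin 2 → n) (b c d : n) (f g : Fin 2 → n) (s : ℂ) (hs : s ≠ 0)
    (hA : ∀ l l', A l' (a l) o = if l' = l then s else 0)
    (hB : B b o = 1) (hC : C c o = 1) (U V : Matrix (Fin 2) (Fin 2) ℂ)
    (hAB : ∀ k l, (A k * B) (f l) o = s * U k l)
    (hBA : ∀ k l, (B * A k) (f l) o = if k = l then s else 0)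
    (hAC : ∀ k l, (A k * C) (g l) o = s * V k l)
    (hCA : ∀ k l, (C * A k) (g l) o = if k = l then s else 0)
    (hBC : (B * C) d o = 1) (hCB : (C * B) d o = 1) : U * V = V * U := by
  obtain ⟨x, x1, x2, x3, x4⟩ := exists_inter ι θ₁ o ξ₁ A hpos u1 k1 a s hs hA
  obtain ⟨y, y1, y2, y3, y4⟩ := exists_inter ι θ₂ o ξ₂ (fun _ : Unit => B) hpos u2
    (by simpa using k2) (fun _ => b) 1 one_ne_zero (by simpa using hB)
  obtain ⟨z, z1, z2, z3, z4⟩ := exists_inter ι θ₃ o ξ₃ (fun _ : Unit => C) hpos u3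
    (by simpa using k3) (fun _ => c) 1 one_ne_zero (by simpa using hC)
  -- relations
  have r12 : ∀ l, θ₁ (y ()) * x l = ∑ k, U k l • (θ₂ (x k) * y ()) := by
    intro l
    have := comm_rel ι θ₁ θ₂ h12 x y A (fun _ : Unit => B) x1 y1 x3 y3
      (by rw [← x4, ← y4]; exact c12) (f l) o
    simp only [Finset.univ_unique, Finset.sum_singleton, hAB, hBA, ite_smul, zero_smul,
      Finset.sum_ite_eq', Finset.mem_univ, if_true] at this
    simp_rw [mul_smul] at this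
    rw [← Finset.smul_sum] at this
    exact (smul_right_injective R hs this).symm
  have r13 : ∀ l, θ₁ (z ()) * x l = ∑ k, V k l • (θ₃ (x k) * z ()) := by
    intro l
    have := comm_rel ι θ₁ θ₃ h13 x z A (fun _ : Unit => C) x1 z1 x3 z3
      (by rw [← x4, ← z4]; exact c13) (g l) o
    simp only [Finset.univ_unique, Finset.sum_singleton, hAC, hCA, ite_smul, zero_smul,
      Finset.sum_ite_eq', Finset.mem_univ, if_true] at this
    simp_rw [mul_smul] at this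
    rw [← Finset.smul_sum] at this
    exact (smul_right_injective R hs this).symm
  have r23 : θ₃ (y ()) * z () = θ₂ (z ()) * y () := by
    have := comm_rel ι θ₂ θ₃ h23 y z (fun _ : Unit => B) (fun _ : Unit => C) y1 z1 y3 z3
      (by rw [← y4, ← z4]; exact c23) d o
    simpa [hBC, hCB] using this
  set w := θ₃ (y ()) * z () with hw
  -- the two ways
  have p1 : ∀ l, θ₁ w * x l = ∑ m, (V * U) m l • (θ₂ (θ₃ (x m)) * w) := by
    intro l
    rw [r23, map_mul, h12, mul_assoc, r12, Finset.mul_sum]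
    have : ∀ k, θ₂ (θ₁ (z ())) * U k l • (θ₂ (x k) * y ())
        = ∑ m, (V m k * U k l) • (θ₂ (θ₃ (x m)) * (θ₂ (z ()) * y ())) := by
      intro k
      rw [mul_smul_comm, ← mul_assoc, ← map_mul, r13, map_sum, Finset.sum_mul,
        Finset.smul_sum]
      refine Finset.sum_congr rfl fun m _ => ?_
      rw [map_smul, map_mul, smul_mul_assoc, smul_smul, mul_comm, mul_assoc]
    simp_rw [this]
    rw [Finset.sum_comm]
    refine Finset.sum_congr rfl fun m _ => ?_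
    rw [← Finset.sum_smul, Matrix.mul_apply]
  have p2 : ∀ l, θ₁ w * x l = ∑ m, (U * V) m l • (θ₂ (θ₃ (x m)) * w) := by
    intro l
    rw [hw, map_mul, h13, mul_assoc, r13, Finset.mul_sum]
    have : ∀ k, θ₃ (θ₁ (y ())) * V k l • (θ₃ (x k) * z ())
        = ∑ m, (U m k * V k l) • (θ₂ (θ₃ (x m)) * (θ₃ (y ()) * z ())) := by
      intro k
      rw [mul_smul_comm, ← mul_assoc, ← map_mul, r12, map_sum, Finset.sum_mul,
        Finset.smul_sum]
      refine Finset.sum_congr rfl fun m _ => ?_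
      rw [map_smul, map_mul, smul_mul_assoc, smul_smul, mul_comm, mul_assoc, h23]
    simp_rw [this]
    rw [Finset.sum_comm]
    refine Finset.sum_congr rfl fun m _ => ?_
    rw [← Finset.sum_smul, Matrix.mul_apply]
  -- orthonormality
  have hww : star w * (θ₂ (θ₃ (ι 1)) * w) = ι 1 := by
    have e1 : θ₂ (θ₃ (ι 1)) * w = w := by
      rw [hw, h23, ← mul_assoc, ← map_mul]
      congr 2
      rw [y1, y3]
    rw [e1, hw, star_mul, ← map_star, mul_assoc, ← mul_assoc _ (θ₃ (y ())), ← map_mul, y2]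
    simp only [if_true]
    rw [z1, z3, z2]
    simp
  have hon : ∀ j m, star (θ₂ (θ₃ (x j)) * w) * (θ₂ (θ₃ (x m)) * w)
      = if j = m then ι 1 else 0 := by
    intro j m
    rw [star_mul, ← map_star, ← map_star, mul_assoc, ← mul_assoc _ (θ₂ (θ₃ (x m))), ← map_mul,
      ← map_mul, x2]
    split_ifs with h
    · exact hww
    · simp
  ext j l
  have e := (p1 l).symm.trans (p2 l)
  have e' := congrArg (fun t => star (θ₂ (θ₃ (x j)) * w) * t) e
  simp only [Finset.mul_sum, mul_smul_comm, hon, smul_ite, smul_zero, Finset.sum_ite_eq,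
    Finset.mem_univ, if_true] at e'
  have e'' : ((V * U) j l - (U * V) j l) • ι 1 = 0 := by rw [sub_smul, e', sub_self]
  rcases smul_eq_zero.mp e'' with h | h
  · exact (sub_eq_zero.mp h).symm
  · exact absurd h hne

end Hex

end Pool.Agent.N236.CP
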