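import Pool.Agent.N236.CP.Hex
set_option autoImplicit false
open Matrix

/-!
# The matrices, and the passage from a unital dilation to the units of the corner
-/

namespace Pool.Agent.N236.CP

/-! ### integer matrices -/

/-- `B` -/
def BZ : Matrix (Fin 10) (Fin 10) ℤ := fun i j =>
  if (i = 1 ∧ j = 0) ∨ (i = 5 ∧ j = 2) ∨ (i = 6 ∧ j = 3) ∨ (i = 7 ∧ j = 4) then 1 else 0

/-- `C` -/
def CZ : Matrix (Fin 10) (Fin 10) ℤ := fun i j =>
  if (i = 2 ∧ j = 0) ∨ (i = 5 ∧ j = 1) ∨ (i = 8 ∧ j = 3) ∨ (i = 9 ∧ j = 4) then 1 else 0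

/-- `A 0` -/
def A0Z : Matrix (Fin 10) (Fin 10) ℤ := fun i j =>
  if (i = 3 ∧ j = 0) ∨ (i = 7 ∧ j = 1) ∨ (i = 8 ∧ j = 2) then 1 else 0

/-- `A 1` -/
def A1Z : Matrix (Fin 10) (Fin 10) ℤ := fun i j =>
  if (i = 4 ∧ j = 0) ∨ (i = 6 ∧ j = 1) then 1 else if i = 9 ∧ j = 2 then -1 else 0

/-- the projection to the coordinates `0, 1, 2` -/
def PZ : Matrix (Fin 10) (Fin 10) ℤ := fun i j => if i = j ∧ (i = 0 ∨ i = 1 ∨ i = 2) then 1 else 0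

lemma A0B : A0Z * BZ = BZ * A1Z := by decide +kernel
lemma A1B : A1Z * BZ = BZ * A0Z := by decide +kernel
lemma A0C : A0Z * CZ = CZ * A0Z := by decide +kernel
lemma A1C : A1Z * CZ = -(CZ * A1Z) := by decide +kernel
lemma BC : BZ * CZ = CZ * BZ := by decide +kernel
lemma A00 : A0Zᵀ * A0Z = PZ := by decide +kernel
lemma A11 : A1Zᵀ * A1Z = PZ := by decide +kernel
lemma PP : PZᵀ * PZ = PZ := by decide +kernel
lemma PT : PZᵀ = PZ := by decide +kernel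
lemma BB : (1 - BZᵀ * BZ)ᵀ * (1 - BZᵀ * BZ) = 1 - BZᵀ * BZ := by decide +kernel
lemma CC : (1 - CZᵀ * CZ)ᵀ * (1 - CZᵀ * CZ) = 1 - CZᵀ * CZ := by decide +kernel

end Pool.Agent.N236.CP
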